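import Pool.Agent.helper70.M8.Chk
import Pool.Agent.helper70.M8.JF
import Pool.Agent.helper70.M8.J3b
import Pool.Agent.helper70.M8.C1
import Pool.Agent.helper70.M9.Rows
import Pool.Agent.helper70.M9.G1a
import Pool.Agent.helper70.M9.G1b
import Pool.Agent.helper70.M9.G2a
import Pool.Agent.helper70.M9.G2b
import Pool.Agent.helper70.M10.If

set_option autoImplicit false

/-!
# M10-M: soundness of the integer test of a column (groups of boxes, charts over `[0,1]`)

Until the other modules exist their theorems are quoted as `If.foo`; replace the import of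
`M10.If` by the final modules and delete every `If.`.
-/

open MvPolynomial Set Filter Topology

namespace Oct.N

open Oct

/-! ### caps -/

theorem capT_sound {B m n : ℕ} {G : List (List ℤ)} {tm um : ℕ} (hs : sizeOK B m n G tm um = true)
    {a b H : ℕ} (ha : a ≤ tm) (hb : b ≤ tm) (hH : H ≤ um) {s : Bool} {V : List SM}
    (hV : RowsOf B m G a b V)
    (h : tstG (kcOf B m n).o2 (kcOf B m n).ms1 s (horG H 1 (kcOf B m n).S V) = true) :
    ∀ t ∈ Icc (a : ℝ) b, ∀ u : ℝ, (H : ℝ) ≤ u → 0 < sg s * evT G t u := by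
  obtain ⟨x, hx, hxm⟩ := tstG_sound (show tstG ((1 + 2 ^ B) ^ m) (mask B ((m + 1) * (n + 1))) s
    (horG H 1 (B * (m + 1)) V) = true from h)
  have hs' := G2b.sizeOK_sT s hs
  obtain ⟨hn, hm', -, -, hum, -⟩ := G2b.sizeOK_len hs'
  obtain ⟨hn0, -⟩ := G2b.sizeOK_len hs
  have hx' : (x : ℤ) = homT (R := ℤ) m n (G2b.sT s G) (a + b * 2 ^ B) (1 + 2 ^ B)
      ((H : ℤ) + 1 * 2 ^ (B * (m + 1))) (1 + 0 * 2 ^ (B * (m + 1)))
      - (1 + 2 ^ B) ^ m * (1 + 0 * 2 ^ (B * (m + 1))) ^ n := by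
    rw [hx, G2b.homT_sT, horG_val hV hn0]
    push_cast
    rw [zero_mul, add_zero, one_pow, mul_one]
  have key1 := coreG hs' ha hb (p0 := H) (p1 := 1) (q0 := 1) (q1 := 0)
    (by rw [abs_of_nonneg (Int.natCast_nonneg H), abs_one]; omega) (by norm_num) hx' hxm
  have h3 := pos_top hn hm' (a := a) (b := b) (H := H) (by
    intro s w hs0 hw
    have := key1 s w hs0 hw
    simpa using this)
  intro t ht u hu
  exact G2b.pos_of_sT G s t u (h3 t ht u hu)

theorem capB_sound {B m n : ℕ} {G : List (List ℤ)} {tm um : ℕ} (hs : sizeOK B m n G tm um = true)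
    {a b L : ℕ} (ha : a ≤ tm) (hb : b ≤ tm) (hL : L ≤ um) {s : Bool} {V : List SM}
    (hV : RowsOf B m G a b V)
    (h : tstG (kcOf B m n).o2 (kcOf B m n).ms1 s (horL L (kcOf B m n).S V) = true) :
    ∀ t ∈ Icc (a : ℝ) b, ∀ u : ℝ, u ≤ L → 0 < sg s * evT G t u := by
  obtain ⟨y, hy, hym⟩ := tstG_sound (show tstG ((1 + 2 ^ B) ^ m) (mask B ((m + 1) * (n + 1))) s
    (horL L (B * (m + 1)) V) = true from h)
  have hs' := G2b.sizeOK_sT s hs
  obtain ⟨hn, hm', -, -, hum, -⟩ := G2b.sizeOK_len hs'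
  obtain ⟨hn0, -⟩ := G2b.sizeOK_len hs
  have hy' : (y : ℤ) = homT (R := ℤ) m n (G2b.sT s G) (a + b * 2 ^ B) (1 + 2 ^ B)
      ((L : ℤ) + (-1) * 2 ^ (B * (m + 1))) (1 + 0 * 2 ^ (B * (m + 1)))
      - (1 + 2 ^ B) ^ m * (1 + 0 * 2 ^ (B * (m + 1))) ^ n := by
    rw [hy, G2b.homT_sT, horL_val hV hn0]
    push_cast
    rw [zero_mul, add_zero, one_pow, mul_one]
  have key2 := coreG hs' ha hb (p0 := L) (p1 := -1) (q0 := 1) (q1 := 0)
    (by rw [abs_of_nonneg (Int.natCast_nonneg L), abs_neg, abs_one]; omega) (by norm_num) hy' hym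
  have h4 := pos_bot hn hm' (a := a) (b := b) (L := L) (by
    intro s w hs0 hw
    have := key2 s w hs0 hw
    simpa [sub_eq_add_neg] using this)
  intro t ht u hu
  exact G2b.pos_of_sT G s t u (h4 t ht u hu)

/-! ### auxiliary facts -/

private theorem ev_hom {F : MvPolynomial (Fin 3) ℝ} {d : ℕ} (hF : F.IsHomogeneous d)
    (c : ℝ) (w : Fin 3 → ℝ) : eval (c • w) F = c ^ d * eval w F := by
  rw [MvPolynomial.eval_eq, MvPolynomial.eval_eq, Finset.mul_sum]
  refine Finset.sum_congr rfl (fun m hm => ?_)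
  have h1 : ∏ i ∈ m.support, (c • w) i ^ m i = c ^ d * ∏ i ∈ m.support, w i ^ m i := by
    have h2 : ∑ i ∈ m.support, m i = d := by
      have := hF (mem_support_iff.1 hm)
      rw [← this]
      simp [Finsupp.weight_apply, Finsupp.sum]
    rw [← h2, ← Finset.prod_pow_eq_pow_sum, ← Finset.prod_mul_distrib]
    refine Finset.prod_congr rfl (fun i _ => ?_)
    rw [Pi.smul_apply, smul_eq_mul, mul_pow]
  rw [h1]
  ring

private theorem nn_tn {z : ℤ} (h : nn z = true) : z = (tn z : ℤ) := by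
  cases z with
  | ofNat k => rfl
  | negSucc k => exact absurd h (by show ¬ (false = true); simp)

private theorem sg_not (b : Bool) : sg (!b) = -sg b := by
  cases b <;> simp [sg]

private theorem pole_false : pole false = ![0, 0, 1] := by
  simp [pole, sg]

private theorem pole_true : pole true = (-1 : ℝ) • (![0, 0, 1] : Fin 3 → ℝ) := by
  funext i
  fin_cases i <;> simp [pole, sg]

/-- from values to `PosOn` -/
private theorem posOn_of {P : MvPolynomial (Fin 2) ℝ} {f : ℝ → ℝ → ℝ}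
    (hP : ∀ t u, eval ![t, u] P = f t u) {r : ℝ} {a b x y : ℝ}
    (h : ∀ t ∈ Icc a b, ∀ u ∈ Icc x y, 0 < r * f t u) : PosOn (C r * P) a b x y := by
  intro t ht u hu
  rw [map_mul, eval_C, hP]
  exact h t ht u hu

private theorem posOn_one {P : MvPolynomial (Fin 2) ℝ} {f : ℝ → ℝ} {t0 : ℝ}
    (hP : ∀ u, eval ![t0, u] P = f u) {r : ℝ} {x y : ℝ}
    (h : ∀ u ∈ Icc x y, 0 < r * f u) : PosOn (C r * P) t0 t0 x y := by
  intro t ht u hu
  have ht' : t = t0 := le_antisymm ht.2 ht.1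
  rw [ht', map_mul, eval_C, hP]
  exact h u hu

private theorem line_d {P : MvPolynomial (Fin 2) ℝ} {H : List (List ℤ)} {t0 t1 : ℝ}
    (hP : ∀ u, eval ![t0, u] P = evT H t1 u) (u : ℝ) :
    eval ![t0, u] (pderiv 1 P) = evT (dU H) t1 u := by
  have h1 := hasDerivAt_snd P t0 u
  have h2 : (fun x => eval ![t0, x] P) = fun x => evT H t1 x := by
    funext x
    exact hP x
  rw [h2] at h1
  exact h1.unique (Oct.hasDerivAt_dU H t1 u)

/-- from values on a horizontal line to `PosOn` -/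
private theorem posOn_pt {P : MvPolynomial (Fin 2) ℝ} {f : ℝ → ℝ → ℝ}
    (hP : ∀ t u, eval ![t, u] P = f t u) {r : ℝ} {a b y : ℝ}
    (h : ∀ t ∈ Icc a b, 0 < r * f t y) : PosOn (C r * P) a b y y := by
  intro t ht u hu
  have hu' : u = y := le_antisymm hu.2 hu.1
  rw [hu', map_mul, eval_C, hP]
  exact h t ht

private theorem posOn_pt1 {P : MvPolynomial (Fin 2) ℝ} {f : ℝ → ℝ} {t0 : ℝ}
    (hP : ∀ u, eval ![t0, u] P = f u) {r y : ℝ}
    (h : 0 < r * f y) : PosOn (C r * P) t0 t0 y y := by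
  intro t ht u hu
  have ht' : t = t0 := le_antisymm ht.2 ht.1
  have hu' : u = y := le_antisymm hu.2 hu.1
  rw [ht', hu', map_mul, eval_C, hP]
  exact h

private theorem len_of_size {B m n : ℕ} {G : List (List ℤ)} {tm um : ℕ}
    (hs : sizeOK B m n G tm um = true) : G.length ≤ n + 1 := by
  unfold sizeOK at hs
  simp only [Bool.and_eq_true, decide_eq_true_eq] at hs
  exact hs.1.1.1.1.1

private theorem len_atT (G : List (List ℤ)) (a : ℤ) : ∀ l ∈ atT G a, l.length ≤ 0 + 1 := by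
  intro l hl
  unfold atT at hl
  obtain ⟨l', h1, h2⟩ := List.mem_map.1 hl
  rw [← h2]
  simp

/-- test of a box, rows of a table for `t ∈ [0,1]` -/
private theorem t2_sound {B m n : ℕ} {H : List (List ℤ)} {um : ℕ}
    (hs : sizeOK B m n H 1 um = true) {lo hi : ℕ}
    (hlo : lo ≤ um) (hhi : hi ≤ um) {σ : Bool} {V : List SM} (hV : RowsOf B m H 0 1 V)
    (h : tst2 (kcOf B m n) (zipG (kcOf B m n).S V n) σ lo hi = true) :
    ∀ t ∈ Icc (0 : ℝ) 1, ∀ u ∈ Icc (lo : ℝ) hi, 0 < sg σ * evT H t u := by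
  have h1 := tst2_sound hs (a := 0) (b := 1) (Nat.zero_le _) le_rfl hlo hhi
    (horG_zip_val hV (len_of_size hs)) h
  simpa using h1

private theorem t1_sound {B m n : ℕ} {H : List (List ℤ)} {um : ℕ}
    (hs : sizeOK B m n H 1 um = true) {y : ℕ} (hy : y ≤ um) {σ : Bool} {V : List SM}
    (hV : RowsOf B m H 0 1 V) (h : tst1 (kcOf B m n) V σ y = true) :
    ∀ t ∈ Icc (0 : ℝ) 1, 0 < sg σ * evT H t y := by
  have h1 := tst1_sound hs (a := 0) (b := 1) (Nat.zero_le _) le_rfl hy hV h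
  simpa using h1

/-! ### boxes -/

section
variable {t : Tabs} (ht : tabsOK t = true) {B M : ℕ} {c : GCol}

/-- chart of a group -/
private def gch (c : GCol) (g : Grp) : Chart := ⟨c.x0, c.x1, c.y0, c.y1, g.al, g.be⟩

/-- facts which follow from the test of the numbers of a group -/
private theorem bnd_facts {um al k : ℕ} {be : List ℤ} (h : bndN t B M um c al be k = true) :
    c.x0.natAbs + c.x1.natAbs ≤ M ∧ c.y0.natAbs + c.y1.natAbs ≤ M ∧ al * um + nrB be ≤ M ∧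
    2 ^ (8 * k + 8) * (128 * (t.nF * M ^ 8) + 1) < 2 ^ (B - 1) ∧ 1 ≤ um ∧ 1 ≤ B ∧ 1 ≤ k ∧
    k ≤ 4 := by
  unfold bndN at h
  simp only [Bool.and_eq_true] at h
  obtain ⟨⟨⟨⟨⟨⟨⟨h1, h2⟩, h3⟩, h4⟩, h5⟩, h6⟩, h7⟩, h8⟩ := h
  exact ⟨Nat.le_of_ble_eq_true h1, Nat.le_of_ble_eq_true h2, Nat.le_of_ble_eq_true h3,
    Nat.le_of_ble_eq_true h4, Nat.le_of_ble_eq_true h5, Nat.le_of_ble_eq_true h6,
    Nat.le_of_ble_eq_true h7, Nat.le_of_ble_eq_true h8⟩

/-- levels of a box -/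
private theorem box_lv {al : ℤ} {be : List ℤ} {b : GBox} {um : ℕ}
    (h : (nn b.c && nn b.s && Nat.ble (tn b.s) (tn b.c) &&
      Nat.ble (Nat.add (tn b.c) (tn b.s)) um) = true) :
    tn b.c - tn b.s ≤ um ∧ tn b.c + tn b.s ≤ um ∧ tn b.c ≤ um ∧
    ((b.box al be).lo : ℝ) = ((tn b.c - tn b.s : ℕ) : ℝ) ∧
    ((b.box al be).hi : ℝ) = ((tn b.c + tn b.s : ℕ) : ℝ) ∧ ((b.box al be).c : ℝ) = (tn b.c : ℝ) := by
  simp only [Bool.and_eq_true] at h
  obtain ⟨⟨⟨nc, ns⟩, hsc⟩, hhi⟩ := h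
  have hsc' : tn b.s ≤ tn b.c := Nat.le_of_ble_eq_true hsc
  have hhi' : tn b.c + tn b.s ≤ um := Nat.le_of_ble_eq_true hhi
  refine ⟨by omega, hhi', by omega, ?_, ?_, ?_⟩
  · have : (b.box al be).lo = ((tn b.c - tn b.s : ℕ) : ℤ) := by
      show b.c - b.s = _
      rw [Nat.cast_sub hsc', ← nn_tn nc, ← nn_tn ns]
    exact_mod_cast congrArg (fun z : ℤ => (z : ℝ)) this
  · have : (b.box al be).hi = ((tn b.c + tn b.s : ℕ) : ℤ) := by
      show b.c + b.s = _
      rw [Nat.cast_add, ← nn_tn nc, ← nn_tn ns]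
    exact_mod_cast congrArg (fun z : ℤ => (z : ℝ)) this
  · exact_mod_cast congrArg (fun z : ℤ => (z : ℝ)) (nn_tn nc)

include ht

private theorem tabs_facts : t.fm.length = 9 ∧ lenOK 8 t.fm = true := by
  unfold tabsOK at ht
  simp only [Bool.and_eq_true] at ht
  obtain ⟨⟨⟨⟨⟨h1, h2⟩, _⟩, _⟩, _⟩, _⟩ := ht
  exact ⟨Nat.eq_of_beq_eq_true h1, h2⟩

/-- soundness of the test of a box -/
private theorem box_sound {k um : ℕ} {g : Grp} (hal : g.al = (tn g.al : ℤ))
    (hk : g.be.length = k + 1) (hbn : bndN t B M um c (tn g.al) g.be k = true) {b : GBox}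
    (h : boxN t B k (kcOf B (8 * k) 8) (sadd (ofZ c.x0 1) (ofZ (c.x0 + c.x1) (Nat.pow 2 B)))
      (sadd (ofZ c.y0 1) (ofZ (c.y0 + c.y1) (Nat.pow 2 B))) c (tn g.al) g.be
      (rowsV B (formsG (sadd (ofZ c.x0 1) (ofZ (c.x0 + c.x1) (Nat.pow 2 B))) t.fm
        (pwS (sadd (ofZ c.y0 1) (ofZ (c.y0 + c.y1) (Nat.pow 2 B))) 8)) (tn g.al) g.be k)
      (zipG (kcOf B (8 * k) 8).S (rowsV B (formsG (sadd (ofZ c.x0 1)
        (ofZ (c.x0 + c.x1) (Nat.pow 2 B))) t.fm
        (pwS (sadd (ofZ c.y0 1) (ofZ (c.y0 + c.y1) (Nat.pow 2 B))) 8)) (tn g.al) g.be k) 8)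
      (zipG (kcOf B (8 * k) 8).S (duG (rowsV B (formsG (sadd (ofZ c.x0 1)
        (ofZ (c.x0 + c.x1) (Nat.pow 2 B))) t.fm
        (pwS (sadd (ofZ c.y0 1) (ofZ (c.y0 + c.y1) (Nat.pow 2 B))) 8)) (tn g.al) g.be k).tail 1) 8)
      um b = true) :
    BoxOK (polyF 8 t.fm) (gch c g) (b.box g.al g.be) := by
  obtain ⟨hx, hy, hz, hB, hum, hB1, hk1, hk4⟩ := bnd_facts hbn
  obtain ⟨hfm, hlen⟩ := tabs_facts ht
  have hal' : (gch c g).al = (tn g.al : ℤ) := hal
  have hal0 : 0 ≤ (gch c g).al := by rw [hal']; exact Int.natCast_nonneg _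
  obtain ⟨sV, sU, sT, sA⟩ := If.sizes (B := B) (M := M) (um := um) (k := k) (ch := gch c g) ht hal0
    hx hy (by rw [hal', Int.natAbs_natCast]; exact hz) hk hB hum hB1 hk1 hk4
  set G := tabV t.fm (gch c g) with hG
  set F := polyF 8 t.fm with hF
  have hV : RowsOf B (8 * k) G 0 1 (rowsV B (formsG (sadd (ofZ c.x0 1)
        (ofZ (c.x0 + c.x1) (Nat.pow 2 B))) t.fm
        (pwS (sadd (ofZ c.y0 1) (ofZ (c.y0 + c.y1) (Nat.pow 2 B))) 8)) (tn g.al) g.be k) :=
    If.rowsV_rows (ch := gch c g) hk1 hk hal' hfm hlen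
  have hVT := If.rowsT_rows (B := B) (ch := gch c g) hk1 hk hal' ht
  have f0 : ∀ x u, eval ![x, u] ((gch c g).pull F) = evT G x u := fun x u => by
    rw [If.eval_pull, hF, hG, If.evT_tabV (gch c g) hfm hlen]
  have fT : ∀ x u, eval ![x, u] (pderiv 0 ((gch c g).pull F)) = evT (tabT t (gch c g)) x u :=
    fun x u => If.evT_tabT (gch c g) ht x u
  have fL : ∀ (e : Bool) (u : ℝ), eval ![((if e then 1 else 0 : ℤ) : ℝ), u] ((gch c g).pull F) =
      evT (atT G (if e then 1 else 0)) 0 u := by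
    intro e u
    rw [evT_atT, f0]
  have fL0 : ∀ u : ℝ, eval ![(0 : ℝ), u] ((gch c g).pull F) = evT (atT G 0) 0 u := by
    intro u; simpa using fL false u
  have fL1 : ∀ u : ℝ, eval ![(1 : ℝ), u] ((gch c g).pull F) = evT (atT G 1) 0 u := by
    intro u; simpa using fL true u
  have hA0 : RowsOf B 0 (atT G 0) 0 0 (rowsA t.fm c.x0 c.y0 (tn g.al) (g.be.headD 0)) := by
    exact If.rowsA_rows B (ch := gch c g) hal' hfm false
  have hA1 : RowsOf B 0 (atT G 1) 0 0 (rowsA t.fm (c.x0 + c.x1) (c.y0 + c.y1) (tn g.al)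
      (g.be.foldr (· + ·) 0)) := by
    exact If.rowsA_rows B (ch := gch c g) hal' hfm true
  have sA0 : sizeOK B 0 8 (atT G 0) 1 um = true ∧ sizeOK B 0 8 (dU (dU (atT G 0))) 1 um = true := by
    simpa using sA false
  have sA1 : sizeOK B 0 8 (atT G 1) 1 um = true ∧ sizeOK B 0 8 (dU (dU (atT G 1))) 1 um = true := by
    simpa using sA true
  unfold boxN at h
  rw [Bool.and_eq_true] at h
  obtain ⟨hb1, hb2⟩ := h
  obtain ⟨hlo, hhi, hcu, blo, bhi, bc⟩ := box_lv (al := g.al) (be := g.be) hb1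
  have hll : ((tn b.c - tn b.s : ℕ) : ℝ) ≤ ((tn b.c + tn b.s : ℕ) : ℝ) := by
    exact_mod_cast (by omega : tn b.c - tn b.s ≤ tn b.c + tn b.s)
  rw [BoxOK, blo, bhi, bc]
  have ety : (b.box g.al g.be).ty = b.ty := rfl
  have esl : (b.box g.al g.be).sl = b.sl := rfl
  have esh : (b.box g.al g.be).sh = b.sh := rfl
  rw [ety, esl, esh]
  have ty : b.ty = 0 ∨ b.ty = 1 ∨ b.ty = 2 ∨ b.ty = 3 ∨ 4 ≤ b.ty := by omega
  rcases ty with ty | ty | ty | ty | ty
  · rw [ty] at hb2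
    simp only [Bool.and_eq_true, beq_iff_eq] at hb2
    obtain ⟨q1, q2⟩ := hb2
    have p2 := t2_sound sV hlo hhi hV q2
    refine ⟨posOn_of f0 (fun t ht u hu => p2 t ht u ⟨hu.1, hu.2.trans hll⟩),
      posOn_of f0 (fun t ht u hu => ?_), Or.inl ⟨ty, q1, posOn_of f0 p2⟩⟩
    rw [← q1]
    exact p2 t ht u ⟨le_trans hll hu.1, hu.2⟩
  · rw [ty] at hb2
    simp only [Bool.and_eq_true, beq_iff_eq] at hb2
    obtain ⟨⟨⟨q1, q2⟩, q3⟩, q4⟩ := hb2
    have p2 := t2_sound sU hlo hhi (duG_rows hV) q2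
    have p3 := t1_sound sV hlo hV q3
    have p4 := t1_sound sV hhi hV q4
    refine ⟨posOn_pt f0 p3, posOn_pt f0 p4, Or.inr (Or.inl ⟨ty, q1, ?_⟩)⟩
    exact posOn_of (fun t u => line_d (f0 t) u) p2
  · rw [ty] at hb2
    simp only [Bool.and_eq_true, beq_iff_eq] at hb2
    obtain ⟨⟨⟨⟨⟨⟨q1, q2⟩, q3⟩, q4⟩, q5⟩, q6⟩, q7⟩ := hb2
    have p2 := t1_sound sV hlo hV q2
    have p3 := t1_sound sV hhi hV q3
    have p4 := tst0_sound sA0.1 hlo hhi hA0 q4
    have p5 := t2_sound sT hlo hhi hVT q5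
    have p6 := tst0_sound sA1.2 hlo hhi (duG_rows (duG_rows hA1)) q6
    have p7 := tstP_sound (len_atT G _) hA1 q7
    rw [sg_not] at p5 p7
    exact ⟨posOn_pt f0 p2, posOn_pt f0 p3, Or.inr (Or.inr (Or.inl ⟨ty, q1,
      posOn_one fL0 p4, posOn_of fT p5, posOn_one (line_d (line_d fL1)) p6, posOn_pt1 fL1 p7⟩))⟩
  · rw [ty] at hb2
    simp only [Bool.and_eq_true, beq_iff_eq] at hb2
    obtain ⟨⟨⟨⟨⟨⟨q1, q2⟩, q3⟩, q4⟩, q5⟩, q6⟩, q7⟩ := hb2
    have p2 := t1_sound sV hlo hV q2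
    have p3 := t1_sound sV hhi hV q3
    have p4 := tst0_sound sA1.1 hlo hhi hA1 q4
    have p5 := t2_sound sT hlo hhi hVT q5
    have p6 := tst0_sound sA0.2 hlo hhi (duG_rows (duG_rows hA0)) q6
    have p7 := tstP_sound (len_atT G _) hA0 q7
    rw [sg_not] at p7
    exact ⟨posOn_pt f0 p2, posOn_pt f0 p3, Or.inr (Or.inr (Or.inr ⟨ty, q1,
      posOn_one fL1 p4, posOn_of fT p5, posOn_one (line_d (line_d fL0)) p6, posOn_pt1 fL0 p7⟩))⟩
  · exfalso
    obtain ⟨k, hk⟩ : ∃ k, b.ty = k + 4 := ⟨b.ty - 4, by omega⟩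
    rw [hk] at hb2
    exact absurd hb2 (by simp)

/-! ### groups -/

omit ht in
private theorem umOf_last (L : List GBox) (b : GBox) (hb : L.getLast? = some b) :
    umOf L = tn b.c + tn b.s := by
  have key : ∀ (L : List GBox) (x : ℕ) (b : GBox), L.getLast? = some b →
      L.foldl (fun _ b => Nat.add (tn b.c) (tn b.s)) x = tn b.c + tn b.s := by
    intro L
    induction L with
    | nil => intro x b h; simp at h
    | cons a L ih =>
      intro x b h
      cases L with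
      | nil =>
        simp only [List.getLast?_singleton, Option.some.injEq] at h
        subst h
        rfl
      | cons a' L =>
        rw [List.foldl_cons]
        exact ih _ b (by simpa using h)
  exact key L 1 b hb

/-- the meaning of the test of a group -/
private theorem grp_sound {sp : Bool} {fst lst : Bool} {g : Grp}
    (h : grpN t B M sp (sadd (ofZ c.x0 1) (ofZ (c.x0 + c.x1) (Nat.pow 2 B)))
      (sadd (ofZ c.y0 1) (ofZ (c.y0 + c.y1) (Nat.pow 2 B)))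
      (formsG (sadd (ofZ c.x0 1) (ofZ (c.x0 + c.x1) (Nat.pow 2 B))) t.fm
        (pwS (sadd (ofZ c.y0 1) (ofZ (c.y0 + c.y1) (Nat.pow 2 B))) 8)) c fst lst g = true) :
    (0 < g.al) ∧
    (fst = true → ∃ b, g.bx.head? = some b ∧ ∀ x ∈ Icc (0 : ℝ) 1, ∀ u : ℝ,
      u ≤ ((b.box g.al g.be).lo : ℝ) → 0 < sg sp * eval ((gch c g).pt x u) (polyF 8 t.fm)) ∧
    (lst = true → ∃ b, g.bx.getLast? = some b ∧ ∀ x ∈ Icc (0 : ℝ) 1, ∀ u : ℝ,
      ((b.box g.al g.be).hi : ℝ) ≤ u → 0 < sg sp * eval ((gch c g).pt x u) (polyF 8 t.fm)) ∧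
    ∀ b ∈ g.bx, BoxOK (polyF 8 t.fm) (gch c g) (b.box g.al g.be) := by
  unfold grpN at h
  simp only [Bool.and_eq_true, Bool.or_eq_true, Bool.not_eq_true', List.all_eq_true] at h
  obtain ⟨⟨⟨⟨⟨hnn, h1al⟩, hbn⟩, hfst⟩, hlst⟩, hbox⟩ := h
  obtain ⟨hx, hy, hz, hB, hum, hB1, hk1, hk4⟩ := bnd_facts hbn
  obtain ⟨hfm, hlen⟩ := tabs_facts ht
  have hal : g.al = (tn g.al : ℤ) := nn_tn hnn
  have h1al' : 1 ≤ tn g.al := Nat.le_of_ble_eq_true h1al
  have hk : g.be.length = Nat.pred g.be.length + 1 := by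
    have : 1 ≤ g.be.length := by
      by_contra h0
      have h00 : g.be.length = 0 := by omega
      rw [h00] at hk1
      exact absurd hk1 (by decide)
    rw [Nat.pred_eq_sub_one]
    omega
  have hal' : (gch c g).al = (tn g.al : ℤ) := hal
  have hal0 : 0 ≤ (gch c g).al := by rw [hal']; exact Int.natCast_nonneg _
  obtain ⟨sV, -⟩ := If.sizes (B := B) (M := M) (um := umOf g.bx) (k := Nat.pred g.be.length)
    (ch := gch c g) ht hal0
    hx hy (by rw [hal', Int.natAbs_natCast]; exact hz) hk hB hum hB1 hk1 hk4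
  have hV := If.rowsV_rows (B := B) (fm := t.fm) (ch := gch c g) hk1 hk hal' hfm hlen
  have hbx : ∀ b ∈ g.bx, tn b.c - tn b.s ≤ umOf g.bx ∧ tn b.c + tn b.s ≤ umOf g.bx ∧
      ((b.box g.al g.be).lo : ℝ) = ((tn b.c - tn b.s : ℕ) : ℝ) ∧
      ((b.box g.al g.be).hi : ℝ) = ((tn b.c + tn b.s : ℕ) : ℝ) := by
    intro b hb
    have h1 := hbox b hb
    unfold boxN at h1
    rw [Bool.and_eq_true] at h1
    obtain ⟨e1, e2, -, e3, e4, -⟩ := box_lv (al := g.al) (be := g.be) h1.1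
    exact ⟨e1, e2, e3, e4⟩
  refine ⟨by omega, ?_, ?_, ?_⟩
  · intro hf
    rw [hf] at hfst
    have hcap := hfst.resolve_left (by simp)
    unfold capB at hcap
    cases hh : g.bx.head? with
    | none => rw [hh] at hcap; exact absurd hcap (by simp)
    | some b =>
      rw [hh] at hcap
      refine ⟨b, rfl, ?_⟩
      have hb : b ∈ g.bx := List.mem_of_mem_head? (by rw [hh]; simp)
      obtain ⟨e1, e2, e3, e4⟩ := hbx b hb
      have h1 := capB_sound sV (a := 0) (b := 1) (Nat.zero_le _) le_rfl e1 hV hcap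
      intro x hx u hu
      rw [If.evT_tabV (gch c g) hfm hlen]
      rw [e3] at hu
      exact h1 x (by simpa using hx) u hu
  · intro hf
    rw [hf] at hlst
    have hcap := hlst.resolve_left (by simp)
    unfold capT at hcap
    cases hh : g.bx.getLast? with
    | none => rw [hh] at hcap; exact absurd hcap (by simp)
    | some b =>
      rw [hh] at hcap
      refine ⟨b, rfl, ?_⟩
      have hb : b ∈ g.bx := List.mem_of_mem_getLast? (by rw [hh]; simp)
      obtain ⟨e1, e2, e3, e4⟩ := hbx b hb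
      have h1 := capT_sound sV (a := 0) (b := 1) (Nat.zero_le _) le_rfl e2 hV hcap
      intro x hx u hu
      rw [If.evT_tabV (gch c g) hfm hlen]
      rw [e4] at hu
      exact h1 x (by simpa using hx) u hu
  · intro b hb
    exact box_sound ht hal hk hbn (hbox b hb)

/-- the meaning of the test of the groups of a column -/
private theorem grps_sound {sp : Bool} : ∀ (f : Bool) (gs : List Grp),
    grpsN t B M sp (sadd (ofZ c.x0 1) (ofZ (c.x0 + c.x1) (Nat.pow 2 B)))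
      (sadd (ofZ c.y0 1) (ofZ (c.y0 + c.y1) (Nat.pow 2 B)))
      (formsG (sadd (ofZ c.x0 1) (ofZ (c.x0 + c.x1) (Nat.pow 2 B))) t.fm
        (pwS (sadd (ofZ c.y0 1) (ofZ (c.y0 + c.y1) (Nat.pow 2 B))) 8)) c f gs = true →
    (∀ g ∈ gs, ∀ b ∈ g.bx, BoxOK (polyF 8 t.fm) (gch c g) (b.box g.al g.be)) ∧
    (f = true → ∃ g L b L', gs = g :: L ∧ 0 < g.al ∧ g.bx = b :: L' ∧
      ∀ x ∈ Icc (0 : ℝ) 1, ∀ u : ℝ, u ≤ ((b.box g.al g.be).lo : ℝ) →
        0 < sg sp * eval ((gch c g).pt x u) (polyF 8 t.fm)) ∧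
    ∃ g L b L', gs = L ++ [g] ∧ 0 < g.al ∧ g.bx = L' ++ [b] ∧
      ∀ x ∈ Icc (0 : ℝ) 1, ∀ u : ℝ, ((b.box g.al g.be).hi : ℝ) ≤ u →
        0 < sg sp * eval ((gch c g).pt x u) (polyF 8 t.fm)
  | _, [], h => by
    unfold grpsN at h
    exact absurd h (by simp)
  | f, [g], h => by
    unfold grpsN at h
    obtain ⟨h1, h2, h3, h4⟩ := grp_sound ht h
    refine ⟨?_, ?_, ?_⟩
    · intro g' hg'
      rw [List.mem_singleton] at hg'
      subst hg'
      exact h4
    · intro hf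
      obtain ⟨b, hb, hh⟩ := h2 hf
      obtain ⟨L', hL'⟩ := List.head?_eq_some_iff.1 hb
      exact ⟨g, [], b, L', rfl, h1, hL', hh⟩
    · obtain ⟨b, hb, hh⟩ := h3 rfl
      obtain ⟨L', hL'⟩ := List.getLast?_eq_some_iff.1 hb
      exact ⟨g, [], b, L', rfl, h1, hL', hh⟩
  | f, g :: g' :: L, h => by
    unfold grpsN at h
    rw [Bool.and_eq_true] at h
    obtain ⟨h1, h2, -, h4⟩ := grp_sound ht h.1
    obtain ⟨k1, -, k3⟩ := grps_sound false (g' :: L) h.2
    refine ⟨?_, ?_, ?_⟩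
    · intro g'' hg''
      rcases List.mem_cons.1 hg'' with rfl | hg''
      · exact h4
      · exact k1 g'' hg''
    · intro hf
      obtain ⟨b, hb, hh⟩ := h2 hf
      obtain ⟨L', hL'⟩ := List.head?_eq_some_iff.1 hb
      exact ⟨g, g' :: L, b, L', rfl, h1, hL', hh⟩
    · obtain ⟨g1, L1, b, L', e1, e2, e3, hh⟩ := k3
      exact ⟨g1, g :: L1, b, L', by rw [e1]; rfl, e2, e3, hh⟩

end

theorem colN_sound {t : Tabs} (ht : tabsOK t = true) {B M : ℕ} {sp : Bool} {c : GCol}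
    (hp : 0 < sg sp * (((t.fm.getD 8 []).getD 0 0 : ℤ) : ℝ)) (h : colN t B M sp c = true) :
    ColOK (polyF 8 t.fm) sp c.col := by
  obtain ⟨hfm, -⟩ := tabs_facts ht
  rw [← If.eval_pole hfm] at hp
  have hF : (polyF 8 t.fm).IsHomogeneous 8 := If.polyF_homog 8 t.fm
  obtain ⟨k1, k2, k3⟩ := grps_sound ht true c.gs h
  have key : ∀ {ch : Chart} (x s u : ℝ), 0 < s → 0 < sg sp * eval (ch.pt x u) (polyF 8 t.fm) →
      0 < sg sp * eval (s • ch.pt x u) (polyF 8 t.fm) := by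
    intro ch x s u hs hpos
    rw [ev_hom hF]
    have : sg sp * (s ^ 8 * eval (ch.pt x u) (polyF 8 t.fm)) =
        s ^ 8 * (sg sp * eval (ch.pt x u) (polyF 8 t.fm)) := by ring
    rw [this]
    exact mul_pos (pow_pos hs 8) hpos
  refine ⟨?_, ?_, ?_⟩
  · obtain ⟨g, L, b, L', e1, hal, e2, hh⟩ := k3
    have hlb : c.col.lb = b.box g.al g.be := by
      unfold Column.lb Column.box
      have e3 : c.col.bx = (L.flatMap Grp.boxes ++ L'.map (GBox.box g.al g.be)) ++
          [b.box g.al g.be] := by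
        show c.gs.flatMap Grp.boxes = _
        rw [e1, List.flatMap_append]
        simp [Grp.boxes, e2]
      rw [e3]
      simp
    have hcb : c.col.cb c.col.lb = gch c g := by
      rw [hlb]
      rfl
    rw [hcb, hlb]
    have hal' : (0 : ℝ) < (gch c g).al := by
      show (0 : ℝ) < (g.al : ℝ)
      exact_mod_cast hal
    intro x hx s hs
    rw [map_mul, eval_C, If.eval_pullEnd]
    have hp2 : pole (!true) = ![0, 0, 1] := pole_false
    rw [hp2]
    rcases hs.1.eq_or_lt with h0 | h0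
    · rw [← h0, zero_smul, zero_add, sub_zero, one_smul]
      exact hp
    · have hs0 : s ≠ 0 := h0.ne'
      have hal0 : ((gch c g).al : ℝ) ≠ 0 := hal'.ne'
      have e1 : s • (gch c g).pt x (b.box g.al g.be).hi + (1 - s) • (![0, 0, 1] : Fin 3 → ℝ) =
          s • (gch c g).pt x ((b.box g.al g.be).hi + (1 - s) / (s * (gch c g).al)) := by
        funext i
        fin_cases i
        · simp [Chart.pt]
        · simp [Chart.pt]
        · simp [Chart.pt]
          field_simp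
          ring
      rw [e1]
      refine key x s _ h0 (hh x hx _ ?_)
      have : 0 ≤ (1 - s) / (s * (gch c g).al) := div_nonneg (by linarith [hs.2]) (by positivity)
      linarith
  · obtain ⟨g, L, b, L', e1, hal, e2, hh⟩ := k2 rfl
    have hfb : c.col.fb = b.box g.al g.be := by
      unfold Column.fb Column.box
      have e3 : c.col.bx = b.box g.al g.be :: (L'.map (GBox.box g.al g.be) ++
          L.flatMap Grp.boxes) := by
        show c.gs.flatMap Grp.boxes = _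
        rw [e1, List.flatMap_cons]
        simp [Grp.boxes, e2]
      rw [e3]
      simp
    have hcb : c.col.cb c.col.fb = gch c g := by
      rw [hfb]
      rfl
    rw [hcb, hfb]
    have hal' : (0 : ℝ) < (gch c g).al := by
      show (0 : ℝ) < (g.al : ℝ)
      exact_mod_cast hal
    intro x hx s hs
    rw [map_mul, eval_C, If.eval_pullEnd]
    have hp2 : pole (!false) = (-1 : ℝ) • (![0, 0, 1] : Fin 3 → ℝ) := pole_true
    rw [hp2]
    rcases hs.1.eq_or_lt with h0 | h0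
    · rw [← h0, zero_smul, zero_add, sub_zero, one_smul, ev_hom hF,
        (by decide : Even 8).neg_one_pow, one_mul]
      exact hp
    · have hs0 : s ≠ 0 := h0.ne'
      have hal0 : ((gch c g).al : ℝ) ≠ 0 := hal'.ne'
      have e1 : s • (gch c g).pt x (b.box g.al g.be).lo +
          (1 - s) • ((-1 : ℝ) • (![0, 0, 1] : Fin 3 → ℝ)) =
          s • (gch c g).pt x ((b.box g.al g.be).lo - (1 - s) / (s * (gch c g).al)) := by
        funext i
        fin_cases i
        · simp [Chart.pt]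
        · simp [Chart.pt]
        · simp [Chart.pt]
          field_simp
          ring
      rw [e1]
      refine key x s _ h0 (hh x hx _ ?_)
      have : 0 ≤ (1 - s) / (s * (gch c g).al) := div_nonneg (by linarith [hs.2]) (by positivity)
      linarith
  · intro b hb
    have hb' : b ∈ c.gs.flatMap Grp.boxes := hb
    rw [List.mem_flatMap] at hb'
    obtain ⟨g, hg, hb'⟩ := hb'
    unfold Grp.boxes at hb'
    rw [List.mem_map] at hb'
    obtain ⟨b', hb1, hb2⟩ := hb'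
    rw [← hb2]
    exact k1 g hg b' hb1

end Oct.N
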